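import Pool.Agent.Helper87.VM.Lib2

/-!
Module FIN: forms without common zero on a cone generate a ring over which the coordinate ring
of the cone is finite.
-/

set_option autoImplicit false

namespace Pool.Agent.Helper87.VM

open MvPolynomial Pool.Agent.Helper48.VMRT

/-- component of a product with a form -/
theorem fin_component_mul {κ : Type} {k : ℕ} {f : MvPolynomial κ ℂ} (hf : HomE k f)
    (p : MvPolynomial κ ℂ) (n : ℕ) :
    homogeneousComponent (n + k) (p * f) = homogeneousComponent n p * f := by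
  let _ := MvPolynomial.gradedAlgebra (σ := κ) (R := ℂ)
  have h := DirectSum.coe_decompose_mul_add_of_right_mem (homogeneousSubmodule κ ℂ)
    (i := n) (j := k) (a := p) (b := f) ((homE_iff.1 hf))
  have e1 := decomposition.decompose'_apply (p * f) (n + k)
  have e2 := decomposition.decompose'_apply p n
  rw [← e1, ← e2]
  exact h

/-- powers of the coordinates lie in the ideal -/
theorem fin_nullst {κ μ : Type} [Fintype κ] {S : Set (κ → ℂ)} {f : μ → MvPolynomial κ ℂ}
    (hS : ZClosed S) (h0 : ∀ x ∈ S, ev f x = 0 → x = 0) (i : κ) :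
    ∃ m : ℕ, X i ^ m ∈ Ideal.span (Set.range f) ⊔ vanishingIdeal ℂ S := by
  have hrad : X i ∈ (Ideal.span (Set.range f) ⊔ vanishingIdeal ℂ S).radical := by
    rw [← vanishingIdeal_zeroLocus_eq_radical (K := ℂ)]
    rw [mem_vI]
    intro x hx
    have hx' : ∀ p ∈ (Ideal.span (Set.range f) ⊔ vanishingIdeal ℂ S), eval x p = 0 := by
      intro p hp
      have := hx p hp
      rwa [aeval_eq_eval] at this
    have h1 : x ∈ S := zclosed_iff.1 hS x fun p hp => hx' p (Ideal.mem_sup_right hp)
    have h2 : ev f x = 0 :=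
      funext fun j => hx' (f j) (Ideal.mem_sup_left (Ideal.subset_span ⟨j, rfl⟩))
    rw [h0 x h1 h2]
    simp
  exact hrad

theorem fin_monomial_mem {κ : Type} [Fintype κ] {J : Ideal (MvPolynomial κ ℂ)} (m : κ → ℕ)
    (hm : ∀ i, X i ^ m i ∈ J) (s : κ →₀ ℕ) (hs : ∑ i, m i < s.degree) :
    monomial s (1 : ℂ) ∈ J := by
  classical
  have h1 : ∃ i, m i ≤ s i := by
    by_contra hcon
    push Not at hcon
    have h2 : s.degree ≤ ∑ i, m i := by
      rw [Finsupp.degree_eq_sum]
      exact Finset.sum_le_sum fun i _ => (hcon i).le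
    omega
  obtain ⟨i, hi⟩ := h1
  have e : monomial s (1 : ℂ) = monomial (s - Finsupp.single i (m i)) (1 : ℂ) * X i ^ m i := by
    rw [X_pow_eq_monomial, monomial_mul, one_mul, tsub_add_cancel_of_le]
    rw [Finsupp.single_le_iff]
    exact hi
  rw [e]
  exact Ideal.mul_mem_left _ _ (hm i)

theorem st_FIN : ST_FIN := by
  intro κ μ _ _ S k f hk hS hc hf h0
  classical
  choose m hm using fun i => fin_nullst (f := f) hS h0 i
  obtain ⟨E, hE⟩ : ∃ E : ℕ, E = ∑ i, m i + 1 := ⟨_, rfl⟩
  let φ : MvPolynomial μ ℂ →+* (MvPolynomial κ ℂ ⧸ vanishingIdeal ℂ S) :=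
    (Ideal.Quotient.mk (vanishingIdeal ℂ S)).comp (aeval (R := ℂ) f).toRingHom
  show φ.Finite
  let _ : Algebra (MvPolynomial μ ℂ) (MvPolynomial κ ℂ ⧸ vanishingIdeal ℂ S) := φ.toAlgebra
  show Module.Finite (MvPolynomial μ ℂ) (MvPolynomial κ ℂ ⧸ vanishingIdeal ℂ S)
  have hsm : ∀ (a : MvPolynomial μ ℂ) (b : MvPolynomial κ ℂ ⧸ vanishingIdeal ℂ S),
      a • b = φ a * b := fun a b => rfl
  have hφC : ∀ c : ℂ, φ (C c) = Ideal.Quotient.mk _ (C c) := by
    intro c
    show Ideal.Quotient.mk (vanishingIdeal ℂ S) (aeval f (C c)) = _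
    rw [← algebraMap_eq, ← algebraMap_eq, AlgHom.commutes]
  have hφX : ∀ j : μ, φ (X j) = Ideal.Quotient.mk _ (f j) := by
    intro j
    show Ideal.Quotient.mk (vanishingIdeal ℂ S) (aeval f (X j)) = _
    rw [aeval_X]
  let T : Set (κ →₀ ℕ) := {s | s.degree ≤ E + k - 1}
  have hT : T.Finite := Finsupp.finite_of_degree_le _
  let g : (κ →₀ ℕ) → (MvPolynomial κ ℂ ⧸ vanishingIdeal ℂ S) :=
    fun s => Ideal.Quotient.mk _ (monomial s (1 : ℂ))
  let N : Submodule (MvPolynomial μ ℂ) (MvPolynomial κ ℂ ⧸ vanishingIdeal ℂ S) :=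
    Submodule.span (MvPolynomial μ ℂ) (g '' T)
  have hmon : ∀ s : κ →₀ ℕ, s.degree < E + k → g s ∈ N := fun s hs =>
    Submodule.subset_span ⟨s, by show s.degree ≤ E + k - 1; omega, rfl⟩
  -- claim A
  have hA : ∀ (e : ℕ) (q : MvPolynomial κ ℂ), e < E + k → q.IsHomogeneous e →
      Ideal.Quotient.mk (vanishingIdeal ℂ S) q ∈ N := by
    intro e q he hq
    rw [← support_sum_monomial_coeff q, map_sum]
    refine Submodule.sum_mem _ fun s hs => ?_
    have hdeg : s.degree = e := by
      have := hq (mem_support_iff.1 hs)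
      rwa [Finsupp.degree_eq_weight_one]
    have e1 : monomial s (coeff s q) = C (coeff s q) * monomial s (1 : ℂ) := by
      rw [C_mul_monomial, mul_one]
    rw [e1, map_mul, ← hφC]
    exact N.smul_mem (C (coeff s q)) (hmon s (by omega))
  -- claim B
  have hB : ∀ s : κ →₀ ℕ, s.degree = E + k → g s ∈ N := by
    intro s hs
    have h1 := fin_monomial_mem m hm s (by omega)
    obtain ⟨y, hy, b, hb, hyb⟩ := Submodule.mem_sup.1 h1
    obtain ⟨a, ha⟩ := (Ideal.mem_span_range_iff_exists_fun).1 hy
    have h2 : homogeneousComponent (E + k) (monomial s (1 : ℂ)) = monomial s 1 :=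
      homogeneousComponent_eq_self (isHomogeneous_monomial 1 hs)
    have h3 : monomial s (1 : ℂ) = ∑ j, homogeneousComponent E (a j) * f j +
        homogeneousComponent (E + k) b := by
      rw [← h2, ← hyb, map_add, ← ha, map_sum]
      congr 1
      exact Finset.sum_congr rfl fun j _ => fin_component_mul (hf j) (a j) E
    have h4 : Ideal.Quotient.mk (vanishingIdeal ℂ S) (homogeneousComponent (E + k) b) = 0 :=
      Ideal.Quotient.eq_zero_iff_mem.2 (homogeneousComponent_mem_vI hc hb _)
    show Ideal.Quotient.mk (vanishingIdeal ℂ S) (monomial s (1 : ℂ)) ∈ N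
    rw [h3, map_add, h4, add_zero, map_sum]
    refine Submodule.sum_mem _ fun j _ => ?_
    rw [map_mul, ← hφX, mul_comm]
    exact N.smul_mem (X j) (hA E _ (by omega) (homogeneousComponent_isHomogeneous _ _))
  -- claim C
  have hC : ∀ (i : κ) (r : MvPolynomial κ ℂ ⧸ vanishingIdeal ℂ S), r ∈ N →
      r * Ideal.Quotient.mk (vanishingIdeal ℂ S) (X i) ∈ N := by
    intro i r hr
    induction hr using Submodule.span_induction with
    | mem x hx =>
      obtain ⟨s, hs, rfl⟩ := hx
      have e1 : g s * Ideal.Quotient.mk (vanishingIdeal ℂ S) (X i) = g (s + Finsupp.single i 1) := by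
        show Ideal.Quotient.mk (vanishingIdeal ℂ S) (monomial s (1 : ℂ)) *
          Ideal.Quotient.mk (vanishingIdeal ℂ S) (X i) = Ideal.Quotient.mk (vanishingIdeal ℂ S) _
        rw [← map_mul, X, monomial_mul, one_mul]
      rw [e1]
      have hs' : s.degree ≤ E + k - 1 := hs
      have hd : (s + Finsupp.single i 1).degree = s.degree + 1 := by
        rw [map_add, Finsupp.degree_single]
      rcases Nat.lt_or_ge (s.degree + 1) (E + k) with h | h
      · exact hmon _ (by omega)
      · exact hB _ (by omega)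
    | zero => rw [zero_mul]; exact N.zero_mem
    | add x y _ _ hx hy => rw [add_mul]; exact N.add_mem hx hy
    | smul a x _ hx =>
      rw [hsm, mul_assoc, ← hsm]
      exact N.smul_mem a hx
  have htop : N = ⊤ := by
    rw [eq_top_iff]
    rintro r -
    obtain ⟨p, rfl⟩ := Ideal.Quotient.mk_surjective r
    induction p using MvPolynomial.induction_on with
    | C a =>
      have e1 : Ideal.Quotient.mk (vanishingIdeal ℂ S) (C a) = φ (C a) * g 0 := by
        rw [hφC]
        show _ = Ideal.Quotient.mk (vanishingIdeal ℂ S) (C a) *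
          Ideal.Quotient.mk (vanishingIdeal ℂ S) (monomial 0 (1 : ℂ))
        rw [← map_mul, C_mul_monomial, mul_one]
        rfl
      rw [e1]
      exact N.smul_mem (C a) (hmon 0 (by rw [map_zero]; omega))
    | add p q hp hq => rw [map_add]; exact N.add_mem hp hq
    | mul_X p i hp => rw [map_mul]; exact hC i _ hp
  exact ⟨Submodule.fg_def.2 ⟨g '' T, hT.image g, htop⟩⟩

end Pool.Agent.Helper87.VM
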